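import Pool.Agent.R90.W.Final
import Pool.Agent.R90.W.N
import Pool.Agent.R90.W.DR
import Pool.Agent.R90.W.DL
import Pool.Agent.R90.W.DS
import Pool.Agent.R90.Base2
import Pool.Agent.R90.GamesBase

set_option autoImplicit false

/-!
The numbers `r` of shift-minimal winning types for which trade robustness failures of every order
occur are exactly the integers `r ≥ 3`.

`SimpleGame`, `Desir`, `Complete`, `typeOf`, `typeVec`, `topCount`, `TypeLe`, `ShiftMin`,
`numShiftMin`, `Trade` and `TradeRobust` are defined in `Pool.Agent.R90.Games`.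
-/

namespace Pool.Agent.Results.MP_c009d0_co.AtLeastThree

open Finset Pool.Agent.R90.Games Pool.Agent.R90.W

/-- The property of `r` in the question: for every `k ≥ 2` there is a complete simple game with
exactly `r` shift-minimal winning coalition types that is `k`-trade robust but not `(k+1)`-trade
robust. -/
def Unbounded (r : ℕ) : Prop :=
  ∀ k : ℕ, 2 ≤ k → ∃ (N : Type) (_ : Fintype N) (_ : DecidableEq N) (G : SimpleGame N),
    Complete G ∧ numShiftMin G = r ∧ TradeRobust G k ∧ ¬ TradeRobust G (k + 1)

/-- **The property holds exactly for `r ≥ 3`.** -/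
theorem result (r : ℕ) : Unbounded r ↔ 3 ≤ r := by
  constructor
  · intro h
    by_contra hr
    push Not at hr
    obtain ⟨N, i1, i2, G, hc, hn, h3, h4⟩ := h 3 (by norm_num)
    exact h4 (robust_all nlem dr dl ds G hc (Or.inr (by omega)) h3 4)
  · intro hr k hk
    obtain ⟨s, rfl⟩ : ∃ s, r = 3 + s := ⟨r - 3, by omega⟩
    rcases Nat.lt_or_ge k 3 with h | h
    · have hk2 : k = 2 := by omega
      subst hk2
      exact exists_game_two s
    · obtain ⟨c, rfl⟩ : ∃ c, k = c + 1 := ⟨k - 1, by omega⟩
      obtain ⟨N, i1, i2, G, h1, -, h3, h4, h5, -⟩ := exists_game_r (c := c) (by omega) s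
      exact ⟨N, i1, i2, G, h1, h3, h4, h5⟩

end Pool.Agent.Results.MP_c009d0_co.AtLeastThree
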